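import Pool.Agent.H78.CUR.NU

/-!
# Module SP1: the compact space exists in `N` (helper17)
-/

set_option linter.unusedVariables false
set_option synthInstance.maxSize 100000

namespace CUR

open SW

section

variable {N : Type} [SetStr N] [ZF N]

theorem isOP_iff' {u x y : N} : IsOP u x y ↔ u = opair x y := isOP_iff

theorem tri_iff (x y z R : N) : Tri x y z R ↔ E (opair (opair x y) z) R := by
  constructor
  · rintro ⟨u, hu, h⟩
    rw [isOP_iff'] at hu
    rw [pairIn_iff] at h
    rwa [← hu]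
  · intro h
    exact ⟨opair x y, isOP_iff'.2 rfl, (pairIn_iff).2 h⟩

theorem opair_ne_emp (a b : N) : opair a b ≠ emp := by
  intro h
  have : E (sing a) (opair a b) := by rw [opair]; simp
  rw [h] at this
  exact not_mem_emp _ this

/-- the relation `qq j < dist z z'` -/
def DR (c : Codes N) (D : DataN c) (z0 z z' j : N) : Prop :=
  (z = emp ∧ z' = emp ∧ E (opair j z0) c.lt) ∨
  (∃ v G, z = opair v G ∧ z' = emp ∧ E (opair v j) c.hc) ∨
  (∃ v G, z = emp ∧ z' = opair v G ∧ E (opair v j) c.hc) ∨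
  (∃ v G v' G', z = opair v G ∧ z' = opair v' G' ∧ v ≠ v' ∧
    (E (opair v j) c.hc ∨ E (opair v' j) c.hc)) ∨
  (∃ v G G', z = opair v G ∧ z' = opair v G' ∧ E (opair v j) c.hc ∧
    ∀ t, E (opair (opair v G) (opair G' t)) D.tr →
      (E j t ∨ ∃ i, E i om ∧ ¬ E i t ∧ ¬ E (opair i (opair j z0)) c.ad))

theorem DR_df (c : Codes N) (D : DataN c) (z0 : N) : Cl3 (DR c D z0) := by
  unfold DR; infer_instance

instance {c : Codes N} {D : DataN c} {z0 : N} {n : ℕ} {t s u : (Fin n → N) → N} [ht : DfT t]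
    [hs : DfT s] [hu : DfT u] : Df (fun v => DR c D z0 (t v) (s v) (u v)) :=
  (DR_df c D z0).comp3 ht hs hu

theorem shift_cut (c : Codes N) {t : N} {s : ℝ} (h : IsCutOf t s) (m : ℤ) :
    ∃ t' : N, IsCutOf t' (s - m) := by
  obtain ⟨m0, hm0⟩ := qq_surj (-m : ℚ)
  refine ⟨sep om (fun j => ∃ i, E i t ∧ E (opair i (opair (nu m0) j)) c.ad), ?_, ?_⟩
  · intro z hz
    exact (mem_sep.1 hz).1
  · intro j
    rw [mem_sep]
    constructor
    · rintro ⟨_, i, hi, hij⟩
      obtain ⟨i, rfl⟩ := c.std i (h.1 i hi)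
      rw [c.had] at hij
      have h1 := (h.2 i).1 hi
      rw [hm0] at hij
      have h2 : ((qq j : ℚ) : ℝ) ≤ (qq i : ℚ) + ((-m : ℚ) : ℝ) := by exact_mod_cast hij
      push_cast at h2
      linarith
    · intro hj
      obtain ⟨i, hi⟩ := qq_surj (qq j + m)
      refine ⟨nu_mem_om j, nu i, (h.2 i).2 ?_, (c.had _ _ _).2 ?_⟩
      · rw [hi]; push_cast; linarith
      · rw [hm0, hi]; linarith

theorem norm_circle (s : ℝ) : ‖(s : T)‖ = |s - round s| := by
  have := AddCircle.norm_eq (p := (1 : ℝ)) (x := s)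
  simpa using this

theorem norm_circle_le (s : ℝ) : ‖(s : T)‖ ≤ |s| := by
  rw [norm_circle]
  simpa using round_le s 0

theorem DR_iff (c : Codes N) (D : DataN c) {i0 : ℕ} (hi0 : qq i0 = 0) {z z' : N}
    {y y' : Option (ℕ × T)} (h : Pt D z y) (h' : Pt D z' y') (j : ℕ) :
    DR c D (nu i0) z z' (nu j) ↔ (qq j : ℝ) < dZ y y' := by
  rcases y with _ | ⟨n, θ⟩ <;> rcases y' with _ | ⟨m, η⟩
  · have h : z = emp := h
    have h' : z' = emp := h'
    subst h
    subst h'
    simp only [DR, dZ, c.hlt, hi0]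
    constructor
    · rintro (⟨_, _, h⟩ | ⟨v, G, h, _⟩ | ⟨v, G, _, h, _⟩ | ⟨v, G, _, _, h, _⟩ | ⟨v, G, _, h, _⟩)
      · exact_mod_cast h
      all_goals exact absurd h.symm (opair_ne_emp _ _)
    · intro h
      exact Or.inl ⟨trivial, trivial, by exact_mod_cast h⟩
  · have h : z = emp := h
    obtain ⟨G', rfl, hG'⟩ := h'
    subst h
    simp only [DR, dZ]
    rw [← c.hhc]
    constructor
    · rintro (⟨_, h, _⟩ | ⟨v, G, h, _⟩ | ⟨v, G, _, h, h2⟩ | ⟨v, G, _, _, h, _⟩ | ⟨v, G, _, h, _⟩)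
      · exact absurd h (opair_ne_emp _ _)
      · exact absurd h.symm (opair_ne_emp _ _)
      · rw [opair_inj] at h
        rw [h.1]
        exact h2
      all_goals exact absurd h.symm (opair_ne_emp _ _)
    · intro h
      exact Or.inr (Or.inr (Or.inl ⟨_, _, trivial, rfl, h⟩))
  · have h' : z' = emp := h'
    obtain ⟨G, rfl, hG⟩ := h
    subst h'
    simp only [DR, dZ]
    rw [← c.hhc]
    constructor
    · rintro (⟨h, _, _⟩ | ⟨v, G, h, _, h2⟩ | ⟨v, G, _, h, h2⟩ | ⟨v, G, _, _, _, h, _⟩ |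
        ⟨v, G, _, _, h, _⟩)
      · exact absurd h (opair_ne_emp _ _)
      · rw [opair_inj] at h
        rw [h.1]
        exact h2
      all_goals exact absurd h.symm (opair_ne_emp _ _)
    · intro h
      exact Or.inr (Or.inl ⟨_, _, rfl, trivial, h⟩)
  · obtain ⟨G, rfl, hG⟩ := h
    obtain ⟨G', rfl, hG'⟩ := h'
    by_cases hnm : n = m
    · subst hnm
      simp only [DR, dZ, if_true, lt_inf_iff]
      have key : (∀ t, E (opair (opair (nu n) G) (opair G' t)) D.tr →
          (E (nu j) t ∨ ∃ i, E i om ∧ ¬ E i t ∧ ¬ E (opair i (opair (nu j) (nu i0))) c.ad)) ↔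
          (qq j : ℝ) < ‖θ - η‖ := by
        have aux : ∀ (t : N) (s : ℝ), IsCutOf t s →
            ((E (nu j) t ∨ ∃ i, E i om ∧ ¬ E i t ∧ ¬ E (opair i (opair (nu j) (nu i0))) c.ad) ↔
            (qq j : ℝ) < |s|) := by
          intro t s hs
          rw [lt_abs, hs.2]
          refine or_congr Iff.rfl ?_
          constructor
          · rintro ⟨i, hi, hit, hij⟩
            obtain ⟨i, rfl⟩ := c.std i hi
            rw [hs.2] at hit
            rw [c.had, hi0] at hij
            have h1 : ((qq i : ℚ) : ℝ) + (qq j : ℚ) < 0 := by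
              have : qq i + qq j < 0 := not_le.1 hij
              exact_mod_cast this
            push Not at hit
            linarith
          · intro h
            obtain ⟨q, hq1, hq2⟩ := exists_rat_btwn (show s < -(qq j : ℝ) by linarith)
            obtain ⟨i, hi⟩ := qq_surj q
            refine ⟨nu i, nu_mem_om i, ?_, ?_⟩
            · rw [hs.2, hi]
              exact not_lt.2 hq1.le
            · rw [c.had, hi0, hi, not_le]
              have : (q : ℝ) + (qq j : ℝ) < 0 := by linarith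
              exact_mod_cast this
        constructor
        · intro hall
          obtain ⟨t, s, ht, hs⟩ := D.sub hG hG'
          obtain ⟨t', ht'⟩ := shift_cut c ht (round s)
          have e1 : ((s - round s : ℝ) : T) = (s : T) := by
            have h0 : (((round s : ℤ) : ℝ) : T) = 0 := by
              rw [AddCircle.coe_eq_zero_iff]
              exact ⟨round s, by simp⟩
            rw [AddCircle.coe_sub, h0, sub_zero]
          have := hall t' ((D.memtr n G G' t').2 ⟨θ, s - round s, hG, ht', by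
            rw [e1, ← hs]; exact hG'⟩)
          rw [aux t' _ ht'] at this
          rw [hs, ← norm_neg]
          have e2 : -(θ - (θ + (s : T))) = (s : T) := by abel
          rw [e2, norm_circle]
          exact this
        · intro hlt t ht
          obtain ⟨θ', s, hθ, hs, hη⟩ := (D.memtr n G G' t).1 ht
          have e1 := D.uniqT hG hθ
          subst e1
          have e2 := D.uniqT hG' hη
          rw [aux t s hs]
          refine lt_of_lt_of_le hlt ?_
          rw [e2, ← norm_neg]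
          have e3 : -(θ - (θ + (s : T))) = (s : T) := by abel
          rw [e3]
          exact norm_circle_le s
      rw [← key, ← c.hhc]
      constructor
      · rintro (⟨h, _⟩ | ⟨v, G, _, h, _⟩ | ⟨v, G, h, _⟩ | ⟨v, G, v', G', h1, h2, h3, _⟩ |
          ⟨v, G1, G1', h1, h2, h3, h4⟩)
        · exact absurd h (opair_ne_emp _ _)
        · exact absurd h (opair_ne_emp _ _)
        · exact absurd h (opair_ne_emp _ _)
        · rw [opair_inj] at h1 h2
          exact absurd (h1.1.symm.trans h2.1) h3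
        · rw [opair_inj] at h1 h2
          rw [h1.1, h1.2, h2.2]
          exact ⟨h4, h3⟩
      · rintro ⟨h1, h2⟩
        exact Or.inr (Or.inr (Or.inr (Or.inr ⟨_, _, _, rfl, rfl, h2, h1⟩)))
    · simp only [DR, dZ, if_neg hnm, lt_sup_iff]
      rw [← c.hhc, ← c.hhc]
      constructor
      · rintro (⟨h, _⟩ | ⟨v, G, _, h, _⟩ | ⟨v, G, h, _⟩ | ⟨v, G, v', G', h1, h2, h3, h4⟩ |
          ⟨v, G1, G1', h1, h2, h3, h4⟩)
        · exact absurd h (opair_ne_emp _ _)
        · exact absurd h (opair_ne_emp _ _)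
        · exact absurd h (opair_ne_emp _ _)
        · rw [opair_inj] at h1 h2
          rw [h1.1, h2.1]
          exact h4
        · rw [opair_inj] at h1 h2
          exact absurd (nu_inj (h1.1.trans h2.1.symm)) hnm
      · intro h
        exact Or.inr (Or.inr (Or.inr (Or.inl ⟨_, _, _, _, rfl, rfl,
          fun e => hnm (nu_inj e), h⟩)))

end

/-- SP1 -/
theorem cur_sp1 : SP1Stmt := by
  intro N _ _ c D
  obtain ⟨i0, hi0⟩ := qq_surj 0
  have hY : ∀ z, E z (ins emp D.C) ↔ ∃ y, Pt D z y := by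
    intro z
    rw [mem_ins, D.memC]
    constructor
    · rintro (⟨n, θ, G, h1, h2⟩ | rfl)
      · exact ⟨some (n, θ), G, h1, h2⟩
      · exact ⟨none, rfl⟩
    · rintro ⟨_ | ⟨n, θ⟩, h⟩
      · exact Or.inr h
      · obtain ⟨G, h1, h2⟩ := h
        exact Or.inl ⟨n, θ, G, h1, h2⟩
  refine ⟨ins emp D.C,
    sep (prod (prod (ins emp D.C) (ins emp D.C)) (pow om)) (fun q => ∃ z z' w,
      q = opair (opair z z') w ∧ ∀ j, E j om → (E j w ↔ DR c D (nu i0) z z' j)),
    sep (pow (ins emp D.C)) (fun U => ∀ z, E z U → ∃ k, E k om ∧ E (opair (nu i0) k) c.lt ∧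
      ∀ z', E z' (ins emp D.C) → ¬ DR c D (nu i0) z z' k → E z' U), hY, ?_, ?_, ?_⟩
  · intro z z' w
    rw [tri_iff, mem_sep, mem_prod, mem_prod, hY, hY, mem_pow]
    constructor
    · rintro ⟨⟨⟨⟨y, hy⟩, ⟨y', hy'⟩⟩, hw⟩, z1, z1', w1, e, h⟩
      rw [opair_inj, opair_inj] at e
      obtain ⟨⟨rfl, rfl⟩, rfl⟩ := e
      refine ⟨y, y', hy, hy', hw, fun j => ?_⟩
      rw [h _ (nu_mem_om j), DR_iff c D hi0 hy hy']
    · rintro ⟨y, y', hy, hy', hw, h⟩
      refine ⟨⟨⟨⟨y, hy⟩, ⟨y', hy'⟩⟩, hw⟩, z, z', w, rfl, fun j hj => ?_⟩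
      obtain ⟨j, rfl⟩ := c.std j hj
      rw [h, DR_iff c D hi0 hy hy']
  · intro z z' y y' hy hy'
    refine ⟨sep om (fun j => DR c D (nu i0) z z' j), fun x hx => (mem_sep.1 hx).1, fun j => ?_⟩
    rw [mem_sep, DR_iff c D hi0 hy hy']
    exact ⟨fun h => h.2, fun h => ⟨nu_mem_om j, h⟩⟩
  · intro U
    rw [mem_sep, mem_pow]
    refine and_congr_right fun hsub => ?_
    constructor
    · intro h z y hz hy
      obtain ⟨k, hk, hk0, hU⟩ := h z hz
      obtain ⟨k, rfl⟩ := c.std k hk
      rw [c.hlt, hi0] at hk0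
      refine ⟨(qq k : ℝ), by exact_mod_cast hk0, fun z' y' hy' hlt => ?_⟩
      refine hU z' ((hY z').2 ⟨y', hy'⟩) ?_
      rw [DR_iff c D hi0 hy hy']
      exact not_lt.2 hlt.le
    · intro h z hz
      obtain ⟨y, hy⟩ := (hY z).1 (hsub z hz)
      obtain ⟨ε, hε, hU⟩ := h z y hz hy
      obtain ⟨q, hq1, hq2⟩ := exists_rat_btwn hε
      obtain ⟨k, hk⟩ := qq_surj q
      refine ⟨nu k, nu_mem_om k, ?_, fun z' hz' hn => ?_⟩
      · rw [c.hlt, hi0, hk]
        exact_mod_cast hq1
      · obtain ⟨y', hy'⟩ := (hY z').1 hz'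
        rw [DR_iff c D hi0 hy hy', hk, not_lt] at hn
        exact hU z' y' hy' (lt_of_le_of_lt hn hq2)

end CUR
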